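import Mathlib
import Pool.Agent.H355R3.UF.Stmts

set_option autoImplicit false

namespace Pool.Agent.H847R3.UF

open H355R3 RegularWreathProduct

/-- elements of coprime prime orders commute in a finite nilpotent group -/
theorem commute_of_primes {G : Type} [Group G] [Finite G] (hG : Group.IsNilpotent G) {p q : ℕ}
    (hp : p.Prime) (hq : q.Prime) (hpq : p ≠ q) {a b : G} (ha : a ^ p = 1) (hb : b ^ q = 1) :
    Commute a b := by
  have : Fact p.Prime := ⟨hp⟩
  have : Fact q.Prime := ⟨hq⟩
  have q1 := (Group.isNilpotent_of_finite_tfae (G := G)).out 0 3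
  have hn := q1.1 hG
  have hpa : IsPGroup p (Subgroup.zpowers a) := by
    rw [IsPGroup.iff_card]
    have h1 : Nat.card (Subgroup.zpowers a) ∣ p ^ 1 := by
      rw [Nat.card_zpowers, pow_one]
      exact orderOf_dvd_of_pow_eq_one ha
    obtain ⟨k, -, hk⟩ := (Nat.dvd_prime_pow hp).1 h1
    exact ⟨k, hk⟩
  have hqb : IsPGroup q (Subgroup.zpowers b) := by
    rw [IsPGroup.iff_card]
    have h1 : Nat.card (Subgroup.zpowers b) ∣ q ^ 1 := by
      rw [Nat.card_zpowers, pow_one]
      exact orderOf_dvd_of_pow_eq_one hb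
    obtain ⟨k, -, hk⟩ := (Nat.dvd_prime_pow hq).1 h1
    exact ⟨k, hk⟩
  obtain ⟨P, hP⟩ := hpa.exists_le_sylow
  obtain ⟨Q, hQ⟩ := hqb.exists_le_sylow
  have hPn : (P : Subgroup G).Normal := hn p inferInstance P
  have hQn : (Q : Subgroup G).Normal := hn q inferInstance Q
  have hd : Disjoint (P : Subgroup G) (Q : Subgroup G) :=
    IsPGroup.disjoint_of_ne p q hpq _ _ P.isPGroup' Q.isPGroup'
  exact Subgroup.commute_of_normal_of_disjoint _ _ hPn hQn hd a b
    (hP (Subgroup.mem_zpowers a)) (hQ (Subgroup.mem_zpowers b))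

theorem prime_eq {M X : Type} [Group M] [Group X] [Finite M] [Finite X]
    (h : Group.IsNilpotent (RegularWreathProduct M X)) {p q : ℕ} (hp : p.Prime) (hq : q.Prime)
    (hpM : p ∣ Nat.card M) (hqX : q ∣ Nat.card X) : p = q := by
  classical
  by_contra hne
  have : Fact p.Prime := ⟨hp⟩
  have : Fact q.Prime := ⟨hq⟩
  obtain ⟨m, hm⟩ := exists_prime_orderOf_dvd_card' p hpM
  obtain ⟨x, hx⟩ := exists_prime_orderOf_dvd_card' q hqX
  let a : RegularWreathProduct M X := ⟨Pi.mulSingle 1 m, 1⟩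
  let b : RegularWreathProduct M X := ⟨1, x⟩
  have hpow : ∀ n : ℕ, a ^ n = (⟨(Pi.mulSingle 1 m : X → M) ^ n, 1⟩ : RegularWreathProduct M X) := by
    intro n
    induction n with
    | zero => rw [pow_zero, pow_zero]; rfl
    | succ n ih =>
      rw [pow_succ, ih]
      apply RegularWreathProduct.ext
      · funext y
        simp [a, pow_succ]
      · simp [a]
  have ha : a ^ p = 1 := by
    rw [hpow]
    apply RegularWreathProduct.ext
    · funext y
      by_cases hy : y = 1
      · subst hy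
        simp only [Pi.pow_apply, Pi.mulSingle_eq_same]
        rw [← hm, pow_orderOf_eq_one]
        rfl
      · simp only [Pi.pow_apply, Pi.mulSingle_eq_of_ne hy, one_pow]
        rfl
    · rfl
  have hpowb : ∀ n : ℕ, b ^ n = (⟨1, x ^ n⟩ : RegularWreathProduct M X) := by
    intro n
    induction n with
    | zero => simp; rfl
    | succ n ih =>
      rw [pow_succ, ih]
      apply RegularWreathProduct.ext
      · funext y
        simp [b]
      · simp [b, pow_succ]
  have hb : b ^ q = 1 := by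
    rw [hpowb, ← hx, pow_orderOf_eq_one]
    rfl
  have hc := commute_of_primes h hp hq hne ha hb
  have hx1 : x ≠ 1 := by
    rintro rfl
    rw [orderOf_one] at hx
    exact hq.one_lt.ne hx
  have hm1 : m ≠ 1 := by
    rintro rfl
    rw [orderOf_one] at hm
    exact hp.one_lt.ne hm
  have h3 := congrFun (congrArg RegularWreathProduct.left hc.eq) x
  simp only [RegularWreathProduct.mul_left, Pi.mul_apply, a, b] at h3
  simp [Pi.mulSingle_eq_of_ne hx1] at h3
  exact hm1 h3.symm

theorem isPGroup_of_primes {M : Type} [Group M] [Finite M] {p : ℕ} (hp : p.Prime)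
    (h : ∀ q : ℕ, q.Prime → q ∣ Nat.card M → q = p) : IsPGroup p M := by
  have : Fact p.Prime := ⟨hp⟩
  rw [IsPGroup.iff_card]
  refine ⟨(Nat.card M).primeFactorsList.length, ?_⟩
  refine Nat.eq_prime_pow_of_unique_prime_dvd Nat.card_pos.ne' ?_
  intro d hd hdd
  exact h d hd hdd

theorem taskE : H355R3.UF.TaskE := by
  intro A X _ _ _ hA hnil hcl
  obtain ⟨M₀, i1, i2, i3, hM₀⟩ := exists_simple_mem A hA
  have hkey : ∀ (M : Type) [Group M] [Finite M], A.Mem M → ∀ r s : ℕ, r.Prime → s.Prime →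
      r ∣ Nat.card M → s ∣ Nat.card X → r = s := by
    intro M _ _ hM r s hr hs h1 h2
    exact prime_eq (hnil _ (hcl M hM)) hr hs h1 h2
  have hc0 : Nat.card M₀ ≠ 1 := by
    have : Nontrivial M₀ := inferInstance
    exact (Finite.one_lt_card (α := M₀)).ne'
  obtain ⟨p, hp, hpd⟩ := Nat.exists_prime_and_dvd hc0
  have hcX : Nat.card X ≠ 1 := (Finite.one_lt_card (α := X)).ne'
  obtain ⟨q, hq, hqd⟩ := Nat.exists_prime_and_dvd hcX
  have hpq : p = q := hkey M₀ hM₀ p q hp hq hpd hqd
  refine ⟨p, hp, isPGroup_of_primes hp fun s hs hsd => (hkey M₀ hM₀ p s hp hs hpd hsd).symm, ?_⟩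
  intro M _ _ hM
  refine isPGroup_of_primes hp fun r hr hrd => ?_
  rw [hpq]
  exact hkey M hM r q hr hq hrd hqd

end Pool.Agent.H847R3.UF
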